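import Mathlib

set_option autoImplicit false

/-!
# Finite subposets realising the Helly number of a poset

The order `≤` of a poset `X` is extended to the space `βX` of ultrafilters by taking the closure in
`βX × βX`. Among the closed sets `K ⊆ βX` containing `E` which are *good* (if points
`p₁, p₂, q₁, q₂` of `K` have a middle point `p₁, p₂ ≤ r ≤ q₁, q₂` in `βX` then they have one in `K`)
there is a minimal one by compactness. If `X` has no infinite antichain then every nonprincipal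
ultrafilter is approached from below or from above, and in a minimal good set `K` there is no
accumulation point: a maximal accumulation point `p` approached from below would have a
neighbourhood which may be replaced by `p` alone. Hence `K` is finite, and suitable representatives
of the points of `K` in `X` form the wanted finite set.
-/

namespace Pool.Agent.Results.MP_0878ad_co.FiniteHelly

open Set Filter

universe u

variable {X : Type u} [PartialOrder X]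

/-- The extension of the order to ultrafilters (the closure of `≤` in `βX × βX`). -/
def ULe (p q : Ultrafilter X) : Prop := ∀ A ∈ p, ∀ B ∈ q, ∃ x ∈ A, ∃ y ∈ B, x ≤ y

/-- elements below `p` -/
def Lo (p : Ultrafilter X) : Set X := {x | Ioi x ∈ p}

/-- elements above `p` -/
def Hi (p : Ultrafilter X) : Set X := {x | Iio x ∈ p}

theorem ule_refl (p : Ultrafilter X) : ULe p p := by
  intro A hA B hB
  obtain ⟨x, hx⟩ := p.nonempty_of_mem (inter_mem hA hB)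
  exact ⟨x, hx.1, x, hx.2, le_refl x⟩

theorem ule_of_up {p q : Ultrafilter X} (h : ∀ A ∈ p, {y | ∃ x ∈ A, x ≤ y} ∈ q) : ULe p q := by
  intro A hA B hB
  obtain ⟨y, ⟨x, hx, hxy⟩, hy⟩ := q.nonempty_of_mem (inter_mem (h A hA) hB)
  exact ⟨x, hx, y, hy, hxy⟩

theorem up_of_ule {p q : Ultrafilter X} (h : ULe p q) {A : Set X} (hA : A ∈ p) :
    {y | ∃ x ∈ A, x ≤ y} ∈ q := by
  by_contra hn
  obtain ⟨x, hx, y, hy, hxy⟩ := h A hA _ (Ultrafilter.compl_mem_iff_notMem.2 hn)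
  exact hy ⟨x, hx, hxy⟩

theorem ule_of_dn {p q : Ultrafilter X} (h : ∀ B ∈ q, {x | ∃ y ∈ B, x ≤ y} ∈ p) : ULe p q := by
  intro A hA B hB
  obtain ⟨x, hx, ⟨y, hy, hxy⟩⟩ := p.nonempty_of_mem (inter_mem hA (h B hB))
  exact ⟨x, hx, y, hy, hxy⟩

theorem dn_of_ule {p q : Ultrafilter X} (h : ULe p q) {B : Set X} (hB : B ∈ q) :
    {x | ∃ y ∈ B, x ≤ y} ∈ p := by
  by_contra hn
  obtain ⟨x, hx, y, hy, hxy⟩ := h _ (Ultrafilter.compl_mem_iff_notMem.2 hn) B hB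
  exact hx ⟨y, hy, hxy⟩

theorem ioi_of_ule {p q : Ultrafilter X} (h : ULe p q) {x : X} (hx : Ioi x ∈ p) : Ioi x ∈ q := by
  filter_upwards [up_of_ule h hx]
  rintro y ⟨z, hz, hzy⟩
  exact lt_of_lt_of_le hz hzy

theorem iio_of_ule {p q : Ultrafilter X} (h : ULe p q) {x : X} (hx : Iio x ∈ q) : Iio x ∈ p := by
  filter_upwards [dn_of_ule h hx]
  rintro y ⟨z, hz, hzy⟩
  exact lt_of_le_of_lt hzy hz

theorem isClosed_upper (p : Ultrafilter X) : IsClosed {r : Ultrafilter X | ULe p r} := by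
  have : {r : Ultrafilter X | ULe p r} =
      ⋂ A ∈ {A : Set X | A ∈ p}, {r : Ultrafilter X | {y | ∃ x ∈ A, x ≤ y} ∈ r} := by
    ext r
    simp only [mem_ofPred_eq, mem_iInter]
    exact ⟨fun h A hA => up_of_ule h hA, fun h => ule_of_up h⟩
  rw [this]
  exact isClosed_biInter fun A _ => ultrafilter_isClosed_basic _

theorem isClosed_lower (q : Ultrafilter X) : IsClosed {r : Ultrafilter X | ULe r q} := by
  have : {r : Ultrafilter X | ULe r q} =
      ⋂ B ∈ {B : Set X | B ∈ q}, {r : Ultrafilter X | {x | ∃ y ∈ B, x ≤ y} ∈ r} := by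
    ext r
    simp only [mem_ofPred_eq, mem_iInter]
    exact ⟨fun h A hA => dn_of_ule h hA, fun h => ule_of_dn h⟩
  rw [this]
  exact isClosed_biInter fun A _ => ultrafilter_isClosed_basic _

/-- no infinite antichains -/
def FW (X : Type u) [PartialOrder X] : Prop := ∀ A : Set X, IsAntichain (· ≤ ·) A → A.Finite

omit [PartialOrder X] in
theorem eq_pure {p : Ultrafilter X} {x : X} (hx : {x} ∈ p) : p = pure x := by
  apply Ultrafilter.ext
  intro s
  rw [Ultrafilter.mem_pure]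
  constructor
  · intro hs
    obtain ⟨y, hy1, hy2⟩ := p.nonempty_of_mem (inter_mem hs hx)
    rw [mem_singleton_iff] at hy2
    rwa [← hy2]
  · intro hs
    exact p.mem_of_superset hx (singleton_subset_iff.2 hs)

theorem trichotomy (hfw : FW X) (p : Ultrafilter X) :
    (∃ x, p = pure x) ∨ Lo p ∈ p ∨ Hi p ∈ p := by
  by_contra hcon
  push Not at hcon
  obtain ⟨h1, h2, h3⟩ := hcon
  have h1' : ∀ x : X, ({x} : Set X)ᶜ ∈ p := by
    intro x
    rw [Ultrafilter.compl_mem_iff_notMem]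
    intro hx
    exact h1 x (eq_pure hx)
  have hI : (Lo p)ᶜ ∩ (Hi p)ᶜ ∈ p :=
    inter_mem (Ultrafilter.compl_mem_iff_notMem.2 h2) (Ultrafilter.compl_mem_iff_notMem.2 h3)
  have hinc : ∀ x ∈ (Lo p)ᶜ ∩ (Hi p)ᶜ, {y | ¬ x ≤ y ∧ ¬ y ≤ x} ∈ p := by
    intro x hx
    have e1 : (Ioi x)ᶜ ∈ p := Ultrafilter.compl_mem_iff_notMem.2 hx.1
    have e2 : (Iio x)ᶜ ∈ p := Ultrafilter.compl_mem_iff_notMem.2 hx.2
    filter_upwards [e1, e2, h1' x] with y y1 y2 y3
    simp only [mem_compl_iff, mem_Ioi, mem_Iio, mem_singleton_iff] at y1 y2 y3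
    exact ⟨fun h => y1 (lt_of_le_of_ne h (Ne.symm y3)), fun h => y2 (lt_of_le_of_ne h y3)⟩
  have : Std.Symm (fun x y : X => ¬ x ≤ y ∧ ¬ y ≤ x) := ⟨fun _ _ h => ⟨h.2, h.1⟩⟩
  obtain ⟨f, hf1, hf2⟩ := exists_seq_of_forall_finset_exists' (α := X)
    (fun x => x ∈ (Lo p)ᶜ ∩ (Hi p)ᶜ) (fun x y => ¬ x ≤ y ∧ ¬ y ≤ x) (by
      intro s hs
      have : (⋂ x ∈ s, {y | ¬ x ≤ y ∧ ¬ y ≤ x}) ∈ p := by
        exact (Filter.biInter_finset_mem s).2 fun x hx => hinc x (hs x hx)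
      obtain ⟨y, hy1, hy2⟩ := p.nonempty_of_mem (inter_mem hI this)
      refine ⟨y, hy1, fun x hx => ?_⟩
      have := mem_iInter₂.1 hy2 x hx
      exact this)
  have hinj : Function.Injective f := by
    intro m n hmn
    by_contra hne
    have h5 := (hf2 hne).1
    rw [hmn] at h5
    exact h5 (le_refl _)
  have hanti : IsAntichain (· ≤ ·) (range f) := by
    rintro _ ⟨m, rfl⟩ _ ⟨n, rfl⟩ hne
    have : m ≠ n := fun h => hne (by rw [h])
    exact (hf2 this).1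
  exact (Set.infinite_range_of_injective hinj) (hfw _ hanti)

theorem ule_trans (hfw : FW X) {p q r : Ultrafilter X} (h1 : ULe p q) (h2 : ULe q r) :
    ULe p r := by
  intro A hA B hB
  rcases trichotomy hfw q with ⟨x, rfl⟩ | hq | hq
  · obtain ⟨a, ha, y, hy, hay⟩ := h1 A hA {x} (by simp)
    obtain ⟨z, hz, b, hb, hzb⟩ := h2 {x} (by simp) B hB
    simp only [mem_singleton_iff] at hy hz
    subst hy; subst hz
    exact ⟨a, ha, b, hb, hay.trans hzb⟩
  · obtain ⟨a, ha, y, hy, hay⟩ := h1 A hA _ hq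
    obtain ⟨z, hz, b, hb, hzb⟩ := h2 _ hy B hB
    exact ⟨a, ha, b, hb, hay.trans ((le_of_lt hz).trans hzb)⟩
  · obtain ⟨z, hz, b, hb, hzb⟩ := h2 _ hq B hB
    obtain ⟨a, ha, y, hy, hay⟩ := h1 A hA _ hz
    exact ⟨a, ha, b, hb, hay.trans ((le_of_lt hy).trans hzb)⟩

/-- `K` contains a middle point of `p₁, p₂ ≤ q₁, q₂` whenever there is one. -/
def Good (K : Set (Ultrafilter X)) : Prop :=
  ∀ p₁ ∈ K, ∀ p₂ ∈ K, ∀ q₁ ∈ K, ∀ q₂ ∈ K,
    (∃ r, ULe p₁ r ∧ ULe p₂ r ∧ ULe r q₁ ∧ ULe r q₂) →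
      ∃ r ∈ K, ULe p₁ r ∧ ULe p₂ r ∧ ULe r q₁ ∧ ULe r q₂

/-- the family of closed good sets which contain `E` -/
def Fam (E : Set X) : Set (Set (Ultrafilter X)) :=
  {K | IsClosed K ∧ (∀ e ∈ E, (pure e : Ultrafilter X) ∈ K) ∧ Good K}

theorem isClosed_mid (p₁ p₂ q₁ q₂ : Ultrafilter X) :
    IsClosed {r : Ultrafilter X | ULe p₁ r ∧ ULe p₂ r ∧ ULe r q₁ ∧ ULe r q₂} := by
  have : {r : Ultrafilter X | ULe p₁ r ∧ ULe p₂ r ∧ ULe r q₁ ∧ ULe r q₂} =
      {r | ULe p₁ r} ∩ ({r | ULe p₂ r} ∩ ({r | ULe r q₁} ∩ {r | ULe r q₂})) := by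
    ext r; rfl
  rw [this]
  exact (isClosed_upper p₁).inter ((isClosed_upper p₂).inter
    ((isClosed_lower q₁).inter (isClosed_lower q₂)))

theorem exists_minimal_fam (E : Set X) : ∃ K, Minimal (· ∈ Fam E) K := by
  apply zorn_superset
  intro c hc hchain
  rcases c.eq_empty_or_nonempty with rfl | hne
  · exact ⟨univ, ⟨isClosed_univ, fun _ _ => mem_univ _, fun p₁ _ p₂ _ q₁ _ q₂ _ ⟨r, hr⟩ =>
      ⟨r, mem_univ _, hr⟩⟩, fun s hs => absurd hs (notMem_empty s)⟩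
  · refine ⟨⋂₀ c, ⟨?_, ?_, ?_⟩, fun s hs => sInter_subset_of_mem hs⟩
    · exact isClosed_sInter fun s hs => (hc hs).1
    · intro e he s hs
      exact (hc hs).2.1 e he
    · intro p₁ h1 p₂ h2 q₁ h3 q₂ h4 hr
      have : Nonempty c := hne.to_subtype
      have hc' := IsCompact.nonempty_iInter_of_directed_nonempty_isCompact_isClosed
        (fun K : c => {r : Ultrafilter X | ULe p₁ r ∧ ULe p₂ r ∧ ULe r q₁ ∧ ULe r q₂} ∩ K.1)
        (by
          intro K L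
          rcases hchain.total K.2 L.2 with h | h
          · exact ⟨K, Subset.rfl, inter_subset_inter_right _ h⟩
          · exact ⟨L, inter_subset_inter_right _ h, Subset.rfl⟩)
        (by
          intro K
          obtain ⟨r, hr1, hr2⟩ := (hc K.2).2.2 p₁ (h1 K.1 K.2) p₂ (h2 K.1 K.2) q₁ (h3 K.1 K.2) q₂
            (h4 K.1 K.2) hr
          exact ⟨r, hr2, hr1⟩)
        (fun K => ((isClosed_mid p₁ p₂ q₁ q₂).inter (hc K.2).1).isCompact)
        (fun K => (isClosed_mid p₁ p₂ q₁ q₂).inter (hc K.2).1)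
      obtain ⟨r, hr⟩ := hc'
      rw [mem_iInter] at hr
      obtain ⟨K0, hK0⟩ := hne
      exact ⟨r, fun K hK => (hr ⟨K, hK⟩).2, (hr ⟨K0, hK0⟩).1⟩

/-- accumulation points -/
def Acc (K : Set (Ultrafilter X)) (p : Ultrafilter X) : Prop := ∀ A ∈ p, ∃ q ∈ K, q ≠ p ∧ A ∈ q

omit [PartialOrder X] in
theorem mem_of_closed {K : Set (Ultrafilter X)} (hK : IsClosed K) {p : Ultrafilter X}
    (h : ∀ A ∈ p, ∃ q ∈ K, A ∈ q) : p ∈ K := by
  by_contra hp
  obtain ⟨B, ⟨A, rfl⟩, hpA, hA⟩ := (ultrafilterBasis_is_basis (α := X)).exists_subset_of_mem_open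
    (show p ∈ Kᶜ from hp) hK.isOpen_compl
  obtain ⟨q, hq, hAq⟩ := h A hpA
  exact hA hAq hq

theorem not_acc_pure (K : Set (Ultrafilter X)) (x : X) : ¬ Acc K (pure x) := by
  intro h
  obtain ⟨q, _, hq1, hq2⟩ := h {x} (by simp)
  exact hq1 (eq_pure hq2)

/-- in a minimal good set there is no accumulation point which is approached from below -/
theorem no_sup_acc (hfw : FW X) {E : Set X} (hE : E.Finite) {K : Set (Ultrafilter X)}
    (hK : Minimal (· ∈ Fam E) K) {p₀ : Ultrafilter X} (hp0 : p₀ ∈ K) (hL0 : Lo p₀ ∈ p₀)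
    (hA0 : Acc K p₀) : False := by
  obtain ⟨⟨hcl, hEK, hgood⟩, hmin⟩ := hK
  -- a maximal such point
  let S : Set (Ultrafilter X) := {p | p ∈ K ∧ Lo p ∈ p ∧ Acc K p}
  have key_inf : ∀ s : Ultrafilter X, Acc K s → (Hi s ∈ s → False) → Lo s ∈ s := by
    intro s hs h
    rcases trichotomy hfw s with ⟨x, rfl⟩ | h1 | h1
    · exact absurd hs (not_acc_pure K x)
    · exact h1
    · exact absurd h1 h
  obtain ⟨m, hm⟩ := exists_maximal_of_chains_bounded (α := S)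
    (r := fun a b => ULe a.1 b.1) (by
      intro c hc
      by_cases hex : ∃ m : S, m ∈ c ∧ ∀ a ∈ c, ULe a.1 m.1
      · obtain ⟨m, _, hm⟩ := hex
        exact ⟨m, hm⟩
      · push Not at hex
        rcases c.eq_empty_or_nonempty with rfl | hne
        · exact ⟨⟨p₀, hp0, hL0, hA0⟩, fun a ha => absurd ha (notMem_empty a)⟩
        have : Nonempty c := hne.to_subtype
        have htot : ∀ a ∈ c, ∀ b ∈ c, ULe a.1 b.1 ∨ ULe b.1 a.1 := by
          intro a ha b hb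
          by_cases hab : a = b
          · subst hab; exact Or.inl (ule_refl _)
          · exact hc ha hb hab
        obtain ⟨s, hs⟩ := IsCompact.nonempty_iInter_of_directed_nonempty_isCompact_isClosed
          (fun a : c => closure {q : Ultrafilter X | ∃ b : S, b ∈ c ∧ b.1 = q ∧ ULe a.1.1 q})
          (by
            intro a b
            rcases htot a.1 a.2 b.1 b.2 with h | h
            · refine ⟨b, closure_mono ?_, Subset.rfl⟩
              rintro _ ⟨e, he, rfl, h'⟩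
              exact ⟨e, he, rfl, ule_trans hfw h h'⟩
            · refine ⟨a, Subset.rfl, closure_mono ?_⟩
              rintro _ ⟨e, he, rfl, h'⟩
              exact ⟨e, he, rfl, ule_trans hfw h h'⟩)
          (fun a => ⟨a.1.1, subset_closure ⟨a.1, a.2, rfl, ule_refl _⟩⟩)
          (fun a => isClosed_closure.isCompact) (fun a => isClosed_closure)
        rw [mem_iInter] at hs
        have hub : ∀ a ∈ c, ULe a.1 s := by
          intro a ha
          have h1 := hs ⟨a, ha⟩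
          exact (closure_minimal (by rintro _ ⟨e, _, rfl, h'⟩; exact h')
            (isClosed_upper a.1)) h1
        have hsK : s ∈ K := by
          obtain ⟨a, ha⟩ := hne
          exact (closure_minimal (by rintro _ ⟨e, _, rfl, _⟩; exact e.2.1) hcl) (hs ⟨a, ha⟩)
        have hmeet : ∀ A ∈ s, ∃ b : S, b ∈ c ∧ A ∈ b.1 := by
          intro A hA
          obtain ⟨a, ha⟩ := hne
          have h1 := hs ⟨a, ha⟩
          rw [mem_closure_iff] at h1
          obtain ⟨_, h2, ⟨b, hb, rfl, _⟩⟩ := h1 _ (ultrafilter_isOpen_basic A) hA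
          exact ⟨b, hb, h2⟩
        have hsacc : Acc K s := by
          intro A hA
          obtain ⟨b, hb, hbA⟩ := hmeet A hA
          refine ⟨b.1, b.2.1, ?_, hbA⟩
          intro hbs
          obtain ⟨a, ha, hab⟩ := hex b hb
          exact hab (by rw [hbs]; exact hub a ha)
        have hsL : Lo s ∈ s := by
          apply key_inf s hsacc
          intro hH
          obtain ⟨b, hb, hbA⟩ := hmeet _ hH
          obtain ⟨x, hx1, hx2⟩ := b.1.nonempty_of_mem (inter_mem hbA b.2.2.1)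
          obtain ⟨y, hy, z, hz, hyz⟩ := hub b hb _ hx2 _ hx1
          exact absurd (lt_of_lt_of_le hy (hyz.trans (le_of_lt hz))) (lt_irrefl _)
        exact ⟨⟨s, hsK, hsL, hsacc⟩, hub⟩)
    (fun h1 h2 => ule_trans hfw h1 h2)
  obtain ⟨p, hpK, hpL, hpA⟩ := m
  -- the separating element
  have hsep : ∃ d ∈ Lo p, ∀ u ∈ K, Ioi d ∈ u → ULe p u ∨ Lo p ∈ u := by
    by_contra hcon
    push Not at hcon
    choose! u hu using hcon
    have hu1 : ∀ d ∈ Lo p, u d ∈ K := fun d hd => (hu d hd).1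
    have hu2 : ∀ d ∈ Lo p, Ioi d ∈ u d := fun d hd => (hu d hd).2.1
    have hu3 : ∀ d ∈ Lo p, ¬ ULe p (u d) := fun d hd => (hu d hd).2.2.1
    have hu4 : ∀ d ∈ Lo p, Lo p ∉ u d := fun d hd => (hu d hd).2.2.2
    let p' : Ultrafilter X := p.bind u
    have hmem : ∀ A : Set X, A ∈ p' ↔ {d | A ∈ u d} ∈ p := fun A => Iff.rfl
    have hIoi : ∀ x ∈ Lo p, Ioi x ∈ p' := by
      intro x hx
      rw [hmem]
      filter_upwards [hpL, hx] with d hd1 hd2
      exact (u d).mem_of_superset (hu2 d hd1) (Ioi_subset_Ioi (le_of_lt hd2))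
    have hLo' : (Lo p)ᶜ ∈ p' := by
      rw [hmem]
      filter_upwards [hpL] with d hd1
      exact Ultrafilter.compl_mem_iff_notMem.2 (hu4 d hd1)
    have hle : ULe p p' := by
      intro A hA B hB
      obtain ⟨a, ha1, ha2⟩ := p.nonempty_of_mem (inter_mem hA hpL)
      obtain ⟨b, hb1, hb2⟩ := p'.nonempty_of_mem (inter_mem (hIoi a ha2) hB)
      exact ⟨a, ha1, b, hb2, le_of_lt hb1⟩
    have hnle : ¬ ULe p' p := by
      intro h
      obtain ⟨x, hx, y, hy, hxy⟩ := h _ hLo' _ hpL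
      exact hx (p.mem_of_superset hy (Ioi_subset_Ioi hxy))
    have hp'K : p' ∈ K := by
      apply mem_of_closed hcl
      intro A hA
      obtain ⟨d, hd1, hd2⟩ := p.nonempty_of_mem (inter_mem ((hmem A).1 hA) hpL)
      exact ⟨u d, hu1 d hd2, hd1⟩
    have hp'A : Acc K p' := by
      intro A hA
      obtain ⟨d, hd1, hd2⟩ := p.nonempty_of_mem (inter_mem ((hmem A).1 hA) hpL)
      refine ⟨u d, hu1 d hd2, ?_, hd1⟩
      intro h
      exact hu3 d hd2 (by rw [h]; exact hle)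
    have hp'L : Lo p' ∈ p' := by
      apply key_inf p' hp'A
      intro hH
      obtain ⟨d, hd1, hd2⟩ := p.nonempty_of_mem (inter_mem ((hmem _).1 hH) hpL)
      apply hu3 d hd2
      intro A hA B hB
      obtain ⟨a, ha1, ha2⟩ := p.nonempty_of_mem (inter_mem hA hpL)
      obtain ⟨b, hb1, hb2⟩ := (u d).nonempty_of_mem (inter_mem hB hd1)
      obtain ⟨y, hy1, hy2⟩ := p'.nonempty_of_mem (inter_mem (hIoi a ha2) hb2)
      exact ⟨a, ha1, b, hb1, le_of_lt (lt_trans hy1 hy2)⟩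
    exact hnle (hm ⟨p', hp'K, hp'L, hp'A⟩ hle)
  obtain ⟨d₀, hd0, hd0'⟩ := hsep
  have hfin : (⋂ e ∈ E ∩ Lo p, Ioi e) ∈ p :=
    (Filter.biInter_mem (hE.subset inter_subset_left)).2 fun e he => he.2
  obtain ⟨d, ⟨hdE, hd1⟩, hd2⟩ := p.nonempty_of_mem
    (inter_mem (inter_mem hfin (show Ioi d₀ ∈ p from hd0)) hpL)
  have hN : Lo p ∩ Ioi d ∈ p := inter_mem hpL hd2
  let K' : Set (Ultrafilter X) := (K ∩ {q | Lo p ∩ Ioi d ∈ q}ᶜ) ∪ {p}
  have hK'sub : K' ⊆ K := by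
    rintro q (hq | hq)
    · exact hq.1
    · rw [mem_singleton_iff] at hq; subst hq; exact hpK
  have hK'mem : K' ∈ Fam E := by
    refine ⟨?_, ?_, ?_⟩
    · exact (hcl.inter (ultrafilter_isOpen_basic _).isClosed_compl).union isClosed_singleton
    · intro e he
      left
      refine ⟨hEK e he, ?_⟩
      intro h
      have h' : e ∈ Lo p ∩ Ioi d := h
      have h2 : d ∈ Ioi e := mem_iInter₂.1 hdE e ⟨he, h'.1⟩
      exact absurd (lt_trans h2 h'.2) (lt_irrefl _)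
    · intro p₁ h1 p₂ h2 q₁ h3 q₂ h4 hr
      obtain ⟨r, hrK, r1, r2, r3, r4⟩ := hgood p₁ (hK'sub h1) p₂ (hK'sub h2) q₁ (hK'sub h3) q₂
        (hK'sub h4) hr
      by_cases hrN : Lo p ∩ Ioi d ∈ r
      · have hrp : ULe r p := by
          intro A hA B hB
          obtain ⟨a, ha1, ha2, _⟩ := r.nonempty_of_mem (inter_mem hA hrN)
          obtain ⟨b, hb1, hb2⟩ := p.nonempty_of_mem (inter_mem hB (show Ioi a ∈ p from ha2))
          exact ⟨a, ha1, b, hb1, le_of_lt hb2⟩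
        have hup : ∀ q ∈ K', ULe r q → ULe p q := by
          intro q hq hrq
          have e1 : Ioi d ∈ q := ioi_of_ule hrq (r.mem_of_superset hrN inter_subset_right)
          rcases hd0' q (hK'sub hq) (q.mem_of_superset e1 (Ioi_subset_Ioi (le_of_lt hd1)))
            with h | h
          · exact h
          · rcases hq with hq | hq
            · exact absurd (inter_mem h e1) hq.2
            · rw [mem_singleton_iff] at hq; subst hq; exact ule_refl _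
        exact ⟨p, Or.inr rfl, ule_trans hfw r1 hrp, ule_trans hfw r2 hrp, hup _ h3 r3,
          hup _ h4 r4⟩
      · exact ⟨r, Or.inl ⟨hrK, hrN⟩, r1, r2, r3, r4⟩
  have hKK' : K ⊆ K' := hmin hK'mem hK'sub
  obtain ⟨q, hqK, hqp, hqN⟩ := hpA _ hN
  rcases hKK' hqK with h | h
  · exact h.2 hqN
  · exact hqp h

theorem ule_dual {p q : Ultrafilter X} :
    @ULe Xᵒᵈ _ p q ↔ ULe q p := by
  constructor
  · intro h A hA B hB
    obtain ⟨x, hx, y, hy, hxy⟩ := h B hB A hA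
    exact ⟨y, hy, x, hx, hxy⟩
  · intro h A hA B hB
    obtain ⟨x, hx, y, hy, hxy⟩ := h B hB A hA
    exact ⟨y, hy, x, hx, hxy⟩

theorem fw_dual (hfw : FW X) : FW Xᵒᵈ := by
  intro A hA
  exact hfw A (fun a ha b hb hab h => hA hb ha hab.symm h)

theorem good_dual {K : Set (Ultrafilter X)} :
    @Good Xᵒᵈ _ K ↔ Good K := by
  constructor
  · intro h p₁ h1 p₂ h2 q₁ h3 q₂ h4 hr
    obtain ⟨r, r1, r2, r3, r4⟩ := hr
    obtain ⟨r', hr', s1, s2, s3, s4⟩ := h q₁ h3 q₂ h4 p₁ h1 p₂ h2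
      ⟨r, ule_dual.2 r3, ule_dual.2 r4, ule_dual.2 r1, ule_dual.2 r2⟩
    exact ⟨r', hr', ule_dual.1 s3, ule_dual.1 s4, ule_dual.1 s1, ule_dual.1 s2⟩
  · intro h p₁ h1 p₂ h2 q₁ h3 q₂ h4 hr
    obtain ⟨r, r1, r2, r3, r4⟩ := hr
    obtain ⟨r', hr', s1, s2, s3, s4⟩ := h q₁ h3 q₂ h4 p₁ h1 p₂ h2
      ⟨r, ule_dual.1 r3, ule_dual.1 r4, ule_dual.1 r1, ule_dual.1 r2⟩
    exact ⟨r', hr', (@ule_dual X _ _ _).2 s3, (@ule_dual X _ _ _).2 s4,
      (@ule_dual X _ _ _).2 s1, (@ule_dual X _ _ _).2 s2⟩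

theorem fam_dual {E : Set X} {K : Set (Ultrafilter X)} :
    K ∈ @Fam Xᵒᵈ _ E ↔ K ∈ Fam E := by
  constructor
  · rintro ⟨h1, h2, h3⟩
    exact ⟨h1, h2, good_dual.1 h3⟩
  · rintro ⟨h1, h2, h3⟩
    exact ⟨h1, h2, good_dual.2 h3⟩

theorem no_inf_acc (hfw : FW X) {E : Set X} (hE : E.Finite) {K : Set (Ultrafilter X)}
    (hK : Minimal (· ∈ Fam E) K) {p₀ : Ultrafilter X} (hp0 : p₀ ∈ K) (hL0 : Hi p₀ ∈ p₀)
    (hA0 : Acc K p₀) : False := by
  refine @no_sup_acc Xᵒᵈ _ (fw_dual hfw) E hE K ⟨fam_dual.2 hK.1, ?_⟩ p₀ hp0 hL0 hA0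
  intro L hL hLK
  exact hK.2 ((@fam_dual X _ E L).1 hL) hLK

theorem minimal_finite (hfw : FW X) {E : Set X} (hE : E.Finite) {K : Set (Ultrafilter X)}
    (hK : Minimal (· ∈ Fam E) K) : K.Finite := by
  by_contra hinf
  obtain ⟨p, hpK, hp⟩ := Set.Infinite.exists_accPt_of_subset_isCompact hinf
    (hK.1.1.isCompact) Subset.rfl
  rw [accPt_iff_nhds] at hp
  have hacc : Acc K p := by
    intro A hA
    obtain ⟨q, ⟨hq1, hq2⟩, hq3⟩ := hp _ ((ultrafilter_isOpen_basic A).mem_nhds hA)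
    exact ⟨q, hq2, hq3, hq1⟩
  rcases trichotomy hfw p with ⟨x, rfl⟩ | h | h
  · exact not_acc_pure K x hacc
  · exact no_sup_acc hfw hE hK hpK h hacc
  · exact no_inf_acc hfw hE hK hpK h hacc

/-- on a minimal good set the relation is antisymmetric -/
theorem minimal_antisymm (hfw : FW X) {E : Set X} (hE : E.Finite) {K : Set (Ultrafilter X)}
    (hK : Minimal (· ∈ Fam E) K) {p q : Ultrafilter X} (hp : p ∈ K) (hq : q ∈ K)
    (h1 : ULe p q) (h2 : ULe q p) : p = q := by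
  by_contra hne
  have hqE : ∀ x : X, q ≠ pure x := by
    rintro x rfl
    apply hne
    apply eq_pure
    have e1 := dn_of_ule h1 (B := {x}) (by simp)
    have e2 := up_of_ule h2 (A := {x}) (by simp)
    filter_upwards [e1, e2] with y y1 y2
    obtain ⟨z, hz, hyz⟩ := y1
    obtain ⟨w, hw, hwy⟩ := y2
    rw [mem_singleton_iff] at hz hw ⊢
    subst hz; subst hw
    exact le_antisymm hyz hwy
  have hfin := minimal_finite hfw hE hK
  have hmem : K \ {q} ∈ Fam E := by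
    refine ⟨(hfin.subset sdiff_subset).isClosed, ?_, ?_⟩
    · intro e he
      exact ⟨hK.1.2.1 e he, fun h => hqE e h.symm⟩
    · intro p₁ h3 p₂ h4 q₁ h5 q₂ h6 hr
      obtain ⟨r, hrK, r1, r2, r3, r4⟩ := hK.1.2.2 p₁ h3.1 p₂ h4.1 q₁ h5.1 q₂ h6.1 hr
      by_cases hrq : r = q
      · subst hrq
        exact ⟨p, ⟨hp, hne⟩, ule_trans hfw r1 h2, ule_trans hfw r2 h2, ule_trans hfw h1 r3,
          ule_trans hfw h1 r4⟩
      · exact ⟨r, ⟨hrK, hrq⟩, r1, r2, r3, r4⟩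
  exact (hK.2 hmem sdiff_subset hq).2 rfl

theorem lo_mono {p q : Ultrafilter X} (h : ULe p q) : Lo p ⊆ Lo q :=
  fun _ hx => ioi_of_ule h hx

/-- choice of representatives which are compatible with the order, for points approached from
below -/
theorem exists_rep_sup (hfw : FW X) (n : ℕ) : ∀ (S : Finset (Ultrafilter X)), S.card = n →
    (∀ p ∈ S, Lo p ∈ p) → (∀ p ∈ S, ∀ q ∈ S, ULe p q → ULe q p → p = q) →
    ∀ A : Ultrafilter X → Set X, (∀ p ∈ S, A p ∈ p) →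
    ∃ φ : Ultrafilter X → X, (∀ p ∈ S, φ p ∈ A p) ∧ (∀ p ∈ S, φ p ∈ Lo p) ∧
      ∀ p ∈ S, ∀ q ∈ S, ULe p q → φ p ≤ φ q := by
  classical
  induction n with
  | zero =>
    intro S hS _ _ A _
    rw [Finset.card_eq_zero] at hS
    subst hS
    by_cases hX : Nonempty X
    · exact ⟨fun _ => hX.some, by simp, by simp, by simp⟩
    · refine ⟨fun p => absurd (p.nonempty_of_mem univ_mem) ?_, by simp, by simp, by simp⟩
      rintro ⟨x, _⟩
      exact hX ⟨x⟩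
  | succ n ih =>
    intro S hS hL hanti A hA
    have hne : S.Nonempty := by
      rw [← Finset.card_pos, hS]; omega
    obtain ⟨q, hqS, hq⟩ := Finset.exists_max_image S
      (fun q => (S.filter (fun p => ULe p q)).card) hne
    have hqmax : ∀ p ∈ S, ULe q p → p = q := by
      intro p hp hqp
      by_contra hpq
      have hsub : S.filter (fun r => ULe r q) ⊂ S.filter (fun r => ULe r p) := by
        rw [Finset.ssubset_iff_of_subset]
        · refine ⟨p, Finset.mem_filter.2 ⟨hp, ule_refl p⟩, ?_⟩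
          intro h
          exact hpq (hanti p hp q hqS (Finset.mem_filter.1 h).2 hqp)
        · intro r hr
          rw [Finset.mem_filter] at hr ⊢
          exact ⟨hr.1, ule_trans hfw hr.2 hqp⟩
      have := Finset.card_lt_card hsub
      have := hq p hp
      omega
    obtain ⟨φ, hφ1, hφ2, hφ3⟩ := ih (S.erase q) (by rw [Finset.card_erase_of_mem hqS, hS]; rfl)
      (fun p hp => hL p (Finset.mem_of_mem_erase hp))
      (fun p hp r hr => hanti p (Finset.mem_of_mem_erase hp) r (Finset.mem_of_mem_erase hr))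
      A (fun p hp => hA p (Finset.mem_of_mem_erase hp))
    have hI : (⋂ p ∈ (S.erase q).filter (fun p => ULe p q), Ioi (φ p)) ∈ q := by
      refine (Filter.biInter_finset_mem _).2 fun p hp => ?_
      rw [Finset.mem_filter] at hp
      exact lo_mono hp.2 (hφ2 p hp.1)
    obtain ⟨z, ⟨hz1, hz2⟩, hz3⟩ := q.nonempty_of_mem
      (inter_mem (inter_mem (hA q hqS) (hL q hqS)) hI)
    refine ⟨Function.update φ q z, ?_, ?_, ?_⟩
    · intro p hp
      by_cases hpq : p = q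
      · subst hpq; simpa using hz1
      · rw [Function.update_of_ne hpq]
        exact hφ1 p (Finset.mem_erase.2 ⟨hpq, hp⟩)
    · intro p hp
      by_cases hpq : p = q
      · subst hpq; simpa using hz2
      · rw [Function.update_of_ne hpq]
        exact hφ2 p (Finset.mem_erase.2 ⟨hpq, hp⟩)
    · intro p hp r hr hpr
      by_cases hpq : p = q
      · subst hpq
        rw [hqmax r hr hpr]
      · by_cases hrq : r = q
        · subst hrq
          rw [Function.update_self, Function.update_of_ne hpq]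
          have := mem_iInter₂.1 hz3 p (Finset.mem_filter.2 ⟨Finset.mem_erase.2 ⟨hpq, hp⟩, hpr⟩)
          exact le_of_lt this
        · rw [Function.update_of_ne hpq, Function.update_of_ne hrq]
          exact hφ3 p (Finset.mem_erase.2 ⟨hpq, hp⟩) r (Finset.mem_erase.2 ⟨hrq, hr⟩) hpr

theorem exists_rep_inf (hfw : FW X) (S : Finset (Ultrafilter X))
    (hH : ∀ p ∈ S, Hi p ∈ p) (hanti : ∀ p ∈ S, ∀ q ∈ S, ULe p q → ULe q p → p = q)
    (A : Ultrafilter X → Set X) (hA : ∀ p ∈ S, A p ∈ p) :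
    ∃ φ : Ultrafilter X → X, (∀ p ∈ S, φ p ∈ A p) ∧ (∀ p ∈ S, φ p ∈ Hi p) ∧
      ∀ p ∈ S, ∀ q ∈ S, ULe p q → φ p ≤ φ q := by
  obtain ⟨φ, h1, h2, h3⟩ := @exists_rep_sup Xᵒᵈ _ (fw_dual hfw) S.card S rfl hH
    (fun p hp q hq hpq hqp => hanti p hp q hq (ule_dual.1 hqp) (ule_dual.1 hpq)) A hA
  exact ⟨φ, h1, h2, fun p hp q hq hpq => h3 q hq p hp (ule_dual.2 hpq)⟩

theorem lo_mem {p q : Ultrafilter X} (h : ULe p q) (hq : Lo q ∈ q) : Lo q ∈ p := by
  filter_upwards [dn_of_ule h hq]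
  rintro x ⟨y, hy, hxy⟩
  exact q.mem_of_superset hy (Ioi_subset_Ioi hxy)

theorem ici_mem {p : Ultrafilter X} {x : X} (h : ULe (pure x) p) : Ici x ∈ p := by
  filter_upwards [up_of_ule h (A := {x}) (by simp)]
  rintro y ⟨z, hz, hzy⟩
  rw [mem_singleton_iff] at hz
  subst hz
  exact hzy

theorem iic_mem {p : Ultrafilter X} {x : X} (h : ULe p (pure x)) : Iic x ∈ p := by
  filter_upwards [dn_of_ule h (B := {x}) (by simp)]
  rintro y ⟨z, hz, hzy⟩
  rw [mem_singleton_iff] at hz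
  subst hz
  exact hzy

/-- if there is no middle point then this is seen by sets of the ultrafilters -/
theorem exists_sep (p₁ p₂ q₁ q₂ : Ultrafilter X)
    (h : ¬ ∃ r, ULe p₁ r ∧ ULe p₂ r ∧ ULe r q₁ ∧ ULe r q₂) :
    ∃ A₁ ∈ p₁, ∃ A₂ ∈ p₂, ∃ B₁ ∈ q₁, ∃ B₂ ∈ q₂, ∀ x₁ ∈ A₁, ∀ x₂ ∈ A₂, ∀ y₁ ∈ B₁, ∀ y₂ ∈ B₂,
      ¬ ∃ m, x₁ ≤ m ∧ x₂ ≤ m ∧ m ≤ y₁ ∧ m ≤ y₂ := by
  by_contra hcon
  push Not at hcon
  apply h
  let ι : Type u := {A // A ∈ p₁} × {A // A ∈ p₂} × {A // A ∈ q₁} × {A // A ∈ q₂}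
  have : Nonempty ι := ⟨⟨⟨univ, univ_mem⟩, ⟨univ, univ_mem⟩, ⟨univ, univ_mem⟩, ⟨univ, univ_mem⟩⟩⟩
  let t : ι → Set (Ultrafilter X) := fun a =>
    {r | {y | ∃ x ∈ a.1.1, x ≤ y} ∈ r} ∩ ({r | {y | ∃ x ∈ a.2.1.1, x ≤ y} ∈ r} ∩
      ({r | {y | ∃ x ∈ a.2.2.1.1, y ≤ x} ∈ r} ∩ {r | {y | ∃ x ∈ a.2.2.2.1, y ≤ x} ∈ r}))
  have htcl : ∀ a, IsClosed (t a) := fun a =>
    (ultrafilter_isClosed_basic _).inter ((ultrafilter_isClosed_basic _).inter
      ((ultrafilter_isClosed_basic _).inter (ultrafilter_isClosed_basic _)))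
  obtain ⟨r, hr⟩ := IsCompact.nonempty_iInter_of_directed_nonempty_isCompact_isClosed t
    (by
      intro a b
      refine ⟨⟨⟨a.1.1 ∩ b.1.1, inter_mem a.1.2 b.1.2⟩, ⟨a.2.1.1 ∩ b.2.1.1, inter_mem a.2.1.2 b.2.1.2⟩,
        ⟨a.2.2.1.1 ∩ b.2.2.1.1, inter_mem a.2.2.1.2 b.2.2.1.2⟩,
        ⟨a.2.2.2.1 ∩ b.2.2.2.1, inter_mem a.2.2.2.2 b.2.2.2.2⟩⟩, ?_, ?_⟩
      · rintro r ⟨h1, h2, h3, h4⟩
        exact ⟨r.mem_of_superset h1 fun y ⟨x, hx, hxy⟩ => ⟨x, hx.1, hxy⟩,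
          r.mem_of_superset h2 fun y ⟨x, hx, hxy⟩ => ⟨x, hx.1, hxy⟩,
          r.mem_of_superset h3 fun y ⟨x, hx, hxy⟩ => ⟨x, hx.1, hxy⟩,
          r.mem_of_superset h4 fun y ⟨x, hx, hxy⟩ => ⟨x, hx.1, hxy⟩⟩
      · rintro r ⟨h1, h2, h3, h4⟩
        exact ⟨r.mem_of_superset h1 fun y ⟨x, hx, hxy⟩ => ⟨x, hx.2, hxy⟩,
          r.mem_of_superset h2 fun y ⟨x, hx, hxy⟩ => ⟨x, hx.2, hxy⟩,
          r.mem_of_superset h3 fun y ⟨x, hx, hxy⟩ => ⟨x, hx.2, hxy⟩,
          r.mem_of_superset h4 fun y ⟨x, hx, hxy⟩ => ⟨x, hx.2, hxy⟩⟩)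
    (by
      rintro ⟨⟨A₁, h1⟩, ⟨A₂, h2⟩, ⟨B₁, h3⟩, ⟨B₂, h4⟩⟩
      obtain ⟨x₁, hx1, x₂, hx2, y₁, hy1, y₂, hy2, m, m1, m2, m3, m4⟩ :=
        hcon A₁ h1 A₂ h2 B₁ h3 B₂ h4
      exact ⟨pure m, ⟨x₁, hx1, m1⟩, ⟨x₂, hx2, m2⟩, ⟨y₁, hy1, m3⟩, ⟨y₂, hy2, m4⟩⟩)
    (fun a => (htcl a).isCompact) htcl
  rw [mem_iInter] at hr
  have u1 : ∀ {q : Ultrafilter X}, univ ∈ q := univ_mem
  exact ⟨r, ule_of_up fun A hA => (hr ⟨⟨A, hA⟩, ⟨univ, u1⟩, ⟨univ, u1⟩, ⟨univ, u1⟩⟩).1,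
    ule_of_up fun A hA => (hr ⟨⟨univ, u1⟩, ⟨A, hA⟩, ⟨univ, u1⟩, ⟨univ, u1⟩⟩).2.1,
    ule_of_dn fun A hA => (hr ⟨⟨univ, u1⟩, ⟨univ, u1⟩, ⟨A, hA⟩, ⟨univ, u1⟩⟩).2.2.1,
    ule_of_dn fun A hA => (hr ⟨⟨univ, u1⟩, ⟨univ, u1⟩, ⟨univ, u1⟩, ⟨A, hA⟩⟩).2.2.2⟩

theorem exists_sepW (τ : Ultrafilter X × Ultrafilter X × Ultrafilter X × Ultrafilter X) :
    ∃ W : Ultrafilter X → Set X, (∀ p, W p ∈ p) ∧
      ((¬ ∃ r, ULe τ.1 r ∧ ULe τ.2.1 r ∧ ULe r τ.2.2.1 ∧ ULe r τ.2.2.2) →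
        ∀ x₁ ∈ W τ.1, ∀ x₂ ∈ W τ.2.1, ∀ y₁ ∈ W τ.2.2.1, ∀ y₂ ∈ W τ.2.2.2,
          ¬ ∃ m, x₁ ≤ m ∧ x₂ ≤ m ∧ m ≤ y₁ ∧ m ≤ y₂) := by
  classical
  by_cases h : ∃ r, ULe τ.1 r ∧ ULe τ.2.1 r ∧ ULe r τ.2.2.1 ∧ ULe r τ.2.2.2
  · exact ⟨fun _ => univ, fun _ => univ_mem, fun h' => absurd h h'⟩
  · obtain ⟨A₁, h1, A₂, h2, B₁, h3, B₂, h4, hsep⟩ := exists_sep _ _ _ _ h
    refine ⟨fun p => ((if p = τ.1 then A₁ else univ) ∩ (if p = τ.2.1 then A₂ else univ)) ∩
      ((if p = τ.2.2.1 then B₁ else univ) ∩ (if p = τ.2.2.2 then B₂ else univ)), ?_, ?_⟩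
    · intro p
      refine inter_mem (inter_mem ?_ ?_) (inter_mem ?_ ?_)
      · split_ifs with hp
        · rw [hp]; exact h1
        · exact univ_mem
      · split_ifs with hp
        · rw [hp]; exact h2
        · exact univ_mem
      · split_ifs with hp
        · rw [hp]; exact h3
        · exact univ_mem
      · split_ifs with hp
        · rw [hp]; exact h4
        · exact univ_mem
    · intro _ x₁ hx1 x₂ hx2 y₁ hy1 y₂ hy2
      have e1 := hx1.1.1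
      have e2 := hx2.1.2
      have e3 := hy1.2.1
      have e4 := hy2.2.2
      rw [if_pos rfl] at e1 e2 e3 e4
      exact hsep x₁ e1 x₂ e2 y₁ e3 y₂ e4

/-- **Main step.** In a poset without infinite antichains every finite set is contained in a finite
set `F` such that any two lower points and any two upper points of `F` which have a common middle
point have one in `F`. -/
theorem exists_finite (hfw : FW X) {E : Set X} (hE : E.Finite) :
    ∃ F : Set X, F.Finite ∧ E ⊆ F ∧ ∀ t₁ ∈ F, ∀ t₂ ∈ F, ∀ u₁ ∈ F, ∀ u₂ ∈ F,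
      (∃ m, t₁ ≤ m ∧ t₂ ≤ m ∧ m ≤ u₁ ∧ m ≤ u₂) →
        ∃ m ∈ F, t₁ ≤ m ∧ t₂ ≤ m ∧ m ≤ u₁ ∧ m ≤ u₂ := by
  classical
  obtain ⟨K, hK⟩ := exists_minimal_fam E
  have hfin := minimal_finite hfw hE hK
  set S : Finset (Ultrafilter X) := hfin.toFinset with hS
  have hSK : ∀ p, p ∈ S ↔ p ∈ K := fun p => by rw [hS, Set.Finite.mem_toFinset]
  have hanti : ∀ p ∈ S, ∀ q ∈ S, ULe p q → ULe q p → p = q := fun p hp q hq h1 h2 =>
    minimal_antisymm hfw hE hK ((hSK p).1 hp) ((hSK q).1 hq) h1 h2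
  choose W hW1 hW2 using exists_sepW (X := X)
  -- the common refinement
  let A₀ : Ultrafilter X → Set X := fun p => ⋂ τ ∈ S ×ˢ S ×ˢ S ×ˢ S, W τ p
  have hA0 : ∀ p, A₀ p ∈ p := fun p => (Filter.biInter_finset_mem _).2 fun τ _ => hW1 τ p
  -- principal points
  have hψ : ∀ p : Ultrafilter X, ∃ x : X, (∃ y, p = pure y) → p = pure x := by
    intro p
    by_cases h : ∃ y, p = pure y
    · obtain ⟨y, hy⟩ := h
      exact ⟨y, fun _ => hy⟩
    · obtain ⟨x, _⟩ := p.nonempty_of_mem univ_mem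
      exact ⟨x, fun h' => absurd h' h⟩
  choose ψ hψ using hψ
  let P0 := S.filter (fun p => ∃ x, p = pure x)
  let Ki := S.filter (fun p => Hi p ∈ p)
  let Ks := S.filter (fun p => Lo p ∈ p)
  let A₁ : Ultrafilter X → Set X := fun p =>
    (A₀ p ∩ (⋂ q ∈ P0.filter (fun q => ULe q p), Ici (ψ q))) ∩
    ((⋂ q ∈ P0.filter (fun q => ULe p q), Iic (ψ q)) ∩ (⋂ q ∈ Ks.filter (fun q => ULe p q), Lo q))
  have hP0 : ∀ q ∈ P0, q = pure (ψ q) := fun q hq => hψ q (Finset.mem_filter.1 hq).2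
  have hici : ∀ p, (⋂ q ∈ P0.filter (fun q => ULe q p), Ici (ψ q)) ∈ p := by
    intro p
    refine (Filter.biInter_finset_mem _).2 fun q hq => ?_
    rw [Finset.mem_filter] at hq
    apply ici_mem
    rw [← hP0 q hq.1]; exact hq.2
  have hiic : ∀ p, (⋂ q ∈ P0.filter (fun q => ULe p q), Iic (ψ q)) ∈ p := by
    intro p
    refine (Filter.biInter_finset_mem _).2 fun q hq => ?_
    rw [Finset.mem_filter] at hq
    apply iic_mem
    rw [← hP0 q hq.1]; exact hq.2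
  have hA1 : ∀ p, A₁ p ∈ p := by
    intro p
    refine inter_mem (inter_mem (hA0 p) (hici p)) (inter_mem (hiic p) ?_)
    refine (Filter.biInter_finset_mem _).2 fun q hq => ?_
    rw [Finset.mem_filter] at hq
    exact lo_mem hq.2 (Finset.mem_filter.1 hq.1).2
  obtain ⟨φ₁, f1, f2, f3⟩ := exists_rep_inf hfw Ki (fun p hp => (Finset.mem_filter.1 hp).2)
    (fun p hp q hq => hanti p (Finset.mem_filter.1 hp).1 q (Finset.mem_filter.1 hq).1) A₁
    (fun p _ => hA1 p)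
  let A₂ : Ultrafilter X → Set X := fun p =>
    (A₀ p ∩ (⋂ q ∈ P0.filter (fun q => ULe q p), Ici (ψ q))) ∩
    ((⋂ q ∈ P0.filter (fun q => ULe p q), Iic (ψ q)) ∩
      (⋂ q ∈ Ki.filter (fun q => ULe q p), Ici (φ₁ q)))
  have hA2 : ∀ p ∈ Ks, A₂ p ∈ p := by
    intro p hp
    refine inter_mem (inter_mem (hA0 p) (hici p)) (inter_mem (hiic p) ?_)
    refine (Filter.biInter_finset_mem _).2 fun q hq => ?_
    rw [Finset.mem_filter] at hq
    have h1 := f1 q hq.1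
    have h2 : φ₁ q ∈ Lo p := mem_iInter₂.1 h1.2.2 p (Finset.mem_filter.2 ⟨hp, hq.2⟩)
    exact p.mem_of_superset h2 Ioi_subset_Ici_self
  obtain ⟨φ₂, g1, g2, g3⟩ := exists_rep_sup hfw Ks.card Ks rfl
    (fun p hp => (Finset.mem_filter.1 hp).2)
    (fun p hp q hq => hanti p (Finset.mem_filter.1 hp).1 q (Finset.mem_filter.1 hq).1) A₂ hA2
  let φ : Ultrafilter X → X := fun p => if p ∈ Ks then φ₂ p else if p ∈ Ki then φ₁ p else ψ p
  have hcases : ∀ p ∈ S, (p ∈ Ks ∧ φ p = φ₂ p) ∨ (p ∈ Ki ∧ φ p = φ₁ p) ∨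
      (p ∈ P0 ∧ φ p = ψ p) := by
    intro p hp
    by_cases h1 : p ∈ Ks
    · exact Or.inl ⟨h1, if_pos h1⟩
    · by_cases h2 : p ∈ Ki
      · exact Or.inr (Or.inl ⟨h2, by simp only [φ, if_neg h1, if_pos h2]⟩)
      · refine Or.inr (Or.inr ⟨?_, by simp only [φ, if_neg h1, if_neg h2]⟩)
        refine Finset.mem_filter.2 ⟨hp, ?_⟩
        rcases trichotomy hfw p with h | h | h
        · exact h
        · exact absurd (Finset.mem_filter.2 ⟨hp, h⟩) h1
        · exact absurd (Finset.mem_filter.2 ⟨hp, h⟩) h2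
  have hφA : ∀ p ∈ S, φ p ∈ A₀ p := by
    intro p hp
    rcases hcases p hp with ⟨h, e⟩ | ⟨h, e⟩ | ⟨h, e⟩
    · rw [e]; exact (g1 p h).1.1
    · rw [e]; exact (f1 p h).1.1
    · rw [e]
      have := hA0 p
      rw [hP0 p h, Ultrafilter.mem_pure, ← hP0 p h] at this
      exact this
  have hφmono : ∀ p ∈ S, ∀ q ∈ S, ULe p q → φ p ≤ φ q := by
    intro p hp q hq hpq
    rcases hcases p hp with ⟨h, e⟩ | ⟨h, e⟩ | ⟨h, e⟩ <;>
      rcases hcases q hq with ⟨h', e'⟩ | ⟨h', e'⟩ | ⟨h', e'⟩ <;> rw [e, e']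
    · exact g3 p h q h' hpq
    · obtain ⟨y, hy, z, hz, hyz⟩ := hpq _ (g2 p h) _ (f2 q h')
      exact le_of_lt (lt_of_lt_of_le hy (hyz.trans (le_of_lt hz)))
    · exact mem_iInter₂.1 (g1 p h).2.1 q (Finset.mem_filter.2 ⟨h', hpq⟩)
    · exact mem_iInter₂.1 (g1 q h').2.2 p (Finset.mem_filter.2 ⟨h, hpq⟩)
    · exact f3 p h q h' hpq
    · exact mem_iInter₂.1 (f1 p h).2.1 q (Finset.mem_filter.2 ⟨h', hpq⟩)
    · exact mem_iInter₂.1 (g1 q h').1.2 p (Finset.mem_filter.2 ⟨h, hpq⟩)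
    · exact mem_iInter₂.1 (f1 q h').1.2 p (Finset.mem_filter.2 ⟨h, hpq⟩)
    · rw [hP0 p h, hP0 q h'] at hpq
      obtain ⟨y, hy, z, hz, hyz⟩ := hpq {ψ p} (by simp) {ψ q} (by simp)
      rw [mem_singleton_iff] at hy hz
      subst hy; subst hz
      exact hyz
  refine ⟨φ '' K, hfin.image φ, ?_, ?_⟩
  · intro e he
    refine ⟨pure e, hK.1.2.1 e he, ?_⟩
    have hmem : (pure e : Ultrafilter X) ∈ S := (hSK _).2 (hK.1.2.1 e he)
    rcases hcases _ hmem with ⟨h, -⟩ | ⟨h, -⟩ | ⟨h, e'⟩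
    · exact absurd ((Finset.mem_filter.1 h).2 : e < e) (lt_irrefl _)
    · exact absurd ((Finset.mem_filter.1 h).2 : e < e) (lt_irrefl _)
    · rw [e']
      have := hP0 _ h
      exact (Ultrafilter.pure_injective this).symm
  · rintro _ ⟨p₁, hp1, rfl⟩ _ ⟨p₂, hp2, rfl⟩ _ ⟨q₁, hq1, rfl⟩ _ ⟨q₂, hq2, rfl⟩ hm
    have hτ : (p₁, p₂, q₁, q₂) ∈ S ×ˢ S ×ˢ S ×ˢ S := by
      simp only [Finset.mem_product]
      exact ⟨(hSK _).2 hp1, (hSK _).2 hp2, (hSK _).2 hq1, (hSK _).2 hq2⟩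
    by_cases hr : ∃ r, ULe p₁ r ∧ ULe p₂ r ∧ ULe r q₁ ∧ ULe r q₂
    · obtain ⟨r, hrK, r1, r2, r3, r4⟩ := hK.1.2.2 p₁ hp1 p₂ hp2 q₁ hq1 q₂ hq2 hr
      have hrS := (hSK r).2 hrK
      exact ⟨φ r, ⟨r, hrK, rfl⟩, hφmono _ ((hSK _).2 hp1) _ hrS r1,
        hφmono _ ((hSK _).2 hp2) _ hrS r2, hφmono _ hrS _ ((hSK _).2 hq1) r3,
        hφmono _ hrS _ ((hSK _).2 hq2) r4⟩
    · exact absurd hm (hW2 (p₁, p₂, q₁, q₂) hr _ (mem_iInter₂.1 (hφA p₁ ((hSK _).2 hp1)) _ hτ) _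
        (mem_iInter₂.1 (hφA p₂ ((hSK _).2 hp2)) _ hτ) _
        (mem_iInter₂.1 (hφA q₁ ((hSK _).2 hq1)) _ hτ) _
        (mem_iInter₂.1 (hφA q₂ ((hSK _).2 hq2)) _ hτ))

/-! ### The Helly number -/

/-- A subset `S` of a poset `X` is partitionable (in `X`) if there is `x ∈ X` such that at least two
distinct points of `S` are `≥ x` and at least two distinct points of `S` are `≤ x`. -/
def Partitionable {X : Type u} [PartialOrder X] (S : Set X) : Prop :=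
  ∃ x : X, (∃ s ∈ S, ∃ s' ∈ S, s ≠ s' ∧ x ≤ s ∧ x ≤ s') ∧
    (∃ s ∈ S, ∃ s' ∈ S, s ≠ s' ∧ s ≤ x ∧ s' ≤ x)

/-- The Helly number of a poset: the supremum (in `ℕ∞`) of the cardinalities of its
nonpartitionable subsets. -/
noncomputable def hellyNumber (X : Type u) [PartialOrder X] : ℕ∞ :=
  ⨆ S ∈ {S : Set X | ¬ Partitionable S}, S.encard

/-- Let `X` be a poset whose Helly number `h(X)` is finite and let `E ⊆ X` be finite. Then there is a
finite set `F` with `E ⊆ F ⊆ X` such that the poset `F` (with the induced order) has Helly number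
`h(X)`. -/
theorem result (X : Type u) [PartialOrder X] (hX : hellyNumber X ≠ ⊤) (E : Set X)
    (hE : E.Finite) : ∃ F : Set X, F.Finite ∧ E ⊆ F ∧ hellyNumber F = hellyNumber X := by
  have hle : ∀ S : Set X, ¬ Partitionable S → S.encard ≤ hellyNumber X := fun S hS =>
    le_iSup₂ (f := fun (S : Set X) (_ : S ∈ {S : Set X | ¬ Partitionable S}) => S.encard) S hS
  have hfw : FW X := by
    intro A hA
    have : ¬ Partitionable A := by
      rintro ⟨x, ⟨s, hs, s', hs', hne, h1, h2⟩, ⟨t, ht, t', ht', _, h3, h4⟩⟩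
      have e1 : t = s := hA.eq ht hs (h3.trans h1)
      have e2 : t = s' := hA.eq ht hs' (h3.trans h2)
      exact hne (e1.symm.trans e2)
    exact Set.encard_ne_top_iff.1 (ne_top_of_le_ne_top hX (hle A this))
  -- a nonpartitionable set of maximal size
  obtain ⟨S₀, hS0, hS0'⟩ : ∃ S₀ : Set X, ¬ Partitionable S₀ ∧ S₀.encard = hellyNumber X := by
    by_contra hcon
    push Not at hcon
    obtain ⟨n, hn⟩ := ENat.ne_top_iff_exists.1 hX
    have hlt : ∀ S : Set X, ¬ Partitionable S → S.encard < hellyNumber X := fun S hS =>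
      lt_of_le_of_ne (hle S hS) (hcon S hS)
    have hempty : ¬ Partitionable (∅ : Set X) := by
      rintro ⟨x, ⟨s, hs, _⟩, _⟩
      exact hs
    have h0 := hlt ∅ hempty
    rw [Set.encard_empty, ← hn] at h0
    have hn0 : n ≠ 0 := by
      rintro rfl
      simp at h0
    obtain ⟨m, rfl⟩ : ∃ m, n = m + 1 := ⟨n - 1, by omega⟩
    have : hellyNumber X ≤ (m : ℕ∞) := by
      refine iSup₂_le fun S hS => ?_
      have h1 := hlt S hS
      rw [← hn] at h1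
      push_cast at h1
      exact Order.le_of_lt_add_one h1
    rw [← hn] at this
    have h2 : m + 1 ≤ m := by exact_mod_cast this
    omega
  have hS0fin : S₀.Finite := Set.encard_ne_top_iff.1 (by rw [hS0']; exact hX)
  obtain ⟨F, hF, hEF, hFm⟩ := exists_finite hfw (hE.union hS0fin)
  refine ⟨F, hF, fun e he => hEF (Or.inl he), le_antisymm ?_ ?_⟩
  · refine iSup₂_le fun S hS => ?_
    have h1 : ¬ Partitionable (Subtype.val '' S) := by
      rintro ⟨x, ⟨_, ⟨s, hs, rfl⟩, _, ⟨s', hs', rfl⟩, hne, h1, h2⟩,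
        ⟨_, ⟨t, ht, rfl⟩, _, ⟨t', ht', rfl⟩, hne', h3, h4⟩⟩
      obtain ⟨m, hm, m1, m2, m3, m4⟩ := hFm t t.2 t' t'.2 s s.2 s' s'.2 ⟨x, h3, h4, h1, h2⟩
      exact hS ⟨⟨m, hm⟩, ⟨s, hs, s', hs', fun h => hne (by rw [h]), m3, m4⟩,
        ⟨t, ht, t', ht', fun h => hne' (by rw [h]), m1, m2⟩⟩
    have h2 := hle _ h1
    rwa [Subtype.val_injective.encard_image] at h2
  · rw [← hS0']
    have hsub : S₀ ⊆ F := fun s hs => hEF (Or.inr hs)
    have h1 : ¬ Partitionable (Subtype.val ⁻¹' S₀ : Set F) := by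
      rintro ⟨x, ⟨s, hs, s', hs', hne, h1, h2⟩, ⟨t, ht, t', ht', hne', h3, h4⟩⟩
      exact hS0 ⟨x, ⟨s, hs, s', hs', fun h => hne (Subtype.ext h), h1, h2⟩,
        ⟨t, ht, t', ht', fun h => hne' (Subtype.ext h), h3, h4⟩⟩
    have h2 : (Subtype.val ⁻¹' S₀ : Set F).encard = S₀.encard := by
      rw [← Subtype.val_injective.encard_image, Subtype.image_preimage_coe,
        inter_eq_right.2 hsub]
    rw [← h2]
    exact le_iSup₂ (f := fun (S : Set F) (_ : S ∈ {S : Set F | ¬ Partitionable S}) => S.encard) _ h1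

end Pool.Agent.Results.MP_0878ad_co.FiniteHelly
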